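import Pool.Agent.H304Z.NH.Spec3

set_option autoImplicit false
set_option linter.unusedSectionVars false
set_option linter.unusedVariables false

/-!
Orthogonalisation of two Bessel families.
-/

namespace Pool.Agent.H101Z.NH

open Matrix Finset Pool.Agent.H304Z.NH
open scoped MatrixOrder ComplexOrder

variable {n : Type} [Fintype n] [DecidableEq n] {ι κ : Type} [Fintype ι] [Fintype κ]

theorem star_trace_mul (x y : Mat n) : star (trace (xᴴ * y)) = trace (yᴴ * x) := by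
  rw [← trace_conjTranspose, conjTranspose_mul, conjTranspose_conjTranspose]

theorem norm_trace_swap (x y : Mat n) : ‖trace (xᴴ * y)‖ = ‖trace (yᴴ * x)‖ := by
  rw [← star_trace_mul x y, norm_star]

theorem trace_comb_left (k : ι → ℂ) (z : ι → Mat n) (x : Mat n) :
    trace ((∑ a, k a • z a)ᴴ * x) = ∑ a, star (k a) * trace ((z a)ᴴ * x) := by
  rw [conjTranspose_sum, Finset.sum_mul, trace_sum]
  refine sum_congr rfl fun a _ => ?_
  rw [conjTranspose_smul, Matrix.smul_mul, trace_smul, smul_eq_mul]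

theorem trace_comb_right (k : ι → ℂ) (z : ι → Mat n) (x : Mat n) :
    trace (xᴴ * ∑ a, k a • z a) = ∑ a, k a * trace (xᴴ * z a) := by
  rw [Finset.mul_sum, trace_sum]
  refine sum_congr rfl fun a _ => ?_
  rw [Matrix.mul_smul, trace_smul, smul_eq_mul]

theorem re_star_mul_le (p q : ℂ) : (star p * q).re ≤ (‖p‖ ^ 2 + ‖q‖ ^ 2) / 2 := by
  have h1 : (star p * q).re ≤ ‖star p * q‖ := Complex.re_le_norm _
  rw [norm_mul, norm_star] at h1
  nlinarith [sq_nonneg (‖p‖ - ‖q‖)]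

/-- the synthesis bound -/
theorem synth {z : ι → Mat n} (hz : Bes z) (k : ι → ℂ) :
    nsq (∑ a, k a • z a) ≤ ∑ a, ‖k a‖ ^ 2 := by
  have h1 := hz (∑ a, k a • z a)
  have h2 : nsq (∑ a, k a • z a) ≤
      ∑ a, (‖k a‖ ^ 2 + ‖trace ((z a)ᴴ * ∑ a, k a • z a)‖ ^ 2) / 2 := by
    rw [nsq_eq, tr, trace_comb_left, Complex.re_sum]
    exact sum_le_sum fun a _ => re_star_mul_le _ _
  rw [← Finset.sum_div, sum_add_distrib] at h2
  linarith

theorem quad_mul_star (y : Mat n) (ξ : n → ℂ) :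
    star ξ ⬝ᵥ ((y * yᴴ) *ᵥ ξ) = ((∑ i, ‖(yᴴ *ᵥ ξ) i‖ ^ 2 : ℝ) : ℂ) := by
  rw [← mulVec_mulVec, dotProduct_mulVec]
  have e : star ξ ᵥ* y = star (yᴴ *ᵥ ξ) := by
    rw [star_mulVec, conjTranspose_conjTranspose]
  rw [e, dotProduct]
  push_cast
  refine sum_congr rfl fun i _ => ?_
  rw [Pi.star_apply, ← Complex.conj_mul']
  rfl

theorem quad_LL (y : ι → Mat n) (ξ : n → ℂ) :
    star ξ ⬝ᵥ (LL y *ᵥ ξ) = ((∑ a, ∑ i, ‖((y a)ᴴ *ᵥ ξ) i‖ ^ 2 : ℝ) : ℂ) := by
  rw [LL, sum_mulVec, dotProduct_sum, Complex.ofReal_sum]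
  exact sum_congr rfl fun a _ => quad_mul_star _ _

theorem LL_nonneg (y : ι → Mat n) : 0 ≤ LL y :=
  sum_nonneg fun a _ => mul_star_nonneg _

theorem LL_comb (X : ι → κ → ℂ)
    (hX : ∀ k : ι → ℂ, ∑ b, ‖∑ a, star (X a b) * k a‖ ^ 2 ≤ ∑ a, ‖k a‖ ^ 2) (z : ι → Mat n) :
    LL (fun b => ∑ a, X a b • z a) ≤ LL z := by
  rw [← sub_nonneg, Matrix.nonneg_iff_posSemidef]
  refine PosSemidef.of_dotProduct_mulVec_nonneg ?_ fun ξ => ?_
  · show _ᴴ = _
    rw [conjTranspose_sub, herm (LL_nonneg _), herm (LL_nonneg _)]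
  · rw [sub_mulVec, dotProduct_sub, quad_LL, quad_LL, ← Complex.ofReal_sub, Complex.zero_le_real,
      sub_nonneg, sum_comm, sum_comm (f := fun a i => ‖((z a)ᴴ *ᵥ ξ) i‖ ^ 2)]
    refine sum_le_sum fun i _ => ?_
    refine le_trans (le_of_eq (sum_congr rfl fun b _ => ?_)) (hX fun a => ((z a)ᴴ *ᵥ ξ) i)
    rw [conjTranspose_sum, sum_mulVec, Finset.sum_apply]
    congr 2
    refine sum_congr rfl fun a _ => ?_
    rw [conjTranspose_smul, smul_mulVec, Pi.smul_apply, smul_eq_mul]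

theorem RR_eq (y : ι → Mat n) : RR y = LL (fun a => (y a)ᴴ) := by
  simp only [RR, LL, conjTranspose_conjTranspose]

theorem sub_mul_star_le (a b : Mat n) :
    (a - b) * (a - b)ᴴ ≤ (2 : ℝ) • (a * aᴴ) + (2 : ℝ) • (b * bᴴ) := by
  have h := mul_star_nonneg (a + b)
  have e : (a + b) * (a + b)ᴴ =
      (2 : ℝ) • (a * aᴴ) + (2 : ℝ) • (b * bᴴ) - (a - b) * (a - b)ᴴ := by
    rw [conjTranspose_add, conjTranspose_sub, two_smul, two_smul]
    noncomm_ring
  rw [e] at h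
  exact sub_nonneg.mp h

theorem LL_sub_le (w r : κ → Mat n) :
    LL (fun b => w b - r b) ≤ (2 : ℝ) • LL w + (2 : ℝ) • LL r := by
  rw [LL, LL, LL, smul_sum, smul_sum, ← sum_add_distrib]
  exact sum_le_sum fun b _ => sub_mul_star_le _ _

theorem lo : S_LO := by
  intro n _ _ ι κ _ _ z w hz hw
  have hX : ∀ k : ι → ℂ, ∑ b, ‖∑ a, star (trace ((z a)ᴴ * w b)) * k a‖ ^ 2 ≤ ∑ a, ‖k a‖ ^ 2 := by
    intro k
    refine le_trans (le_of_eq (sum_congr rfl fun b _ => ?_)) ((hw _).trans (synth hz k))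
    rw [trace_comb_right]
    congr 2
    refine sum_congr rfl fun a _ => ?_
    rw [star_trace_mul, mul_comm]
  have hX' : ∀ k : ι → ℂ,
      ∑ b, ‖∑ a, star (star (trace ((z a)ᴴ * w b))) * k a‖ ^ 2 ≤ ∑ a, ‖k a‖ ^ 2 := by
    intro k
    have h := hX fun a => star (k a)
    simp only [norm_star] at h
    refine le_trans (le_of_eq (sum_congr rfl fun b _ => ?_)) h
    rw [← norm_star, star_sum]
    congr 2
    refine sum_congr rfl fun a _ => ?_
    rw [star_star, star_mul']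
  refine ⟨fun b => w b - ∑ a, trace ((z a)ᴴ * w b) • z a, fun x => ?_, ?_, ?_, ?_⟩
  · rw [Fintype.sum_sum_type]
    simp only [Sum.elim_inl, Sum.elim_inr]
    have e : ∀ b, trace ((w b - ∑ a, trace ((z a)ᴴ * w b) • z a)ᴴ * x) =
        trace ((w b)ᴴ * (x - ∑ a, trace ((z a)ᴴ * x) • z a)) := by
      intro b
      rw [conjTranspose_sub, Matrix.sub_mul, Matrix.mul_sub, trace_sub, trace_sub,
        trace_comb_left, trace_comb_right]
      congr 1
      refine sum_congr rfl fun a _ => ?_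
      rw [star_trace_mul, mul_comm]
    simp only [e]
    have h1 := hw (x - ∑ a, trace ((z a)ᴴ * x) • z a)
    have h2 := synth hz fun a => trace ((z a)ᴴ * x)
    have h3 : tr (xᴴ * ∑ a, trace ((z a)ᴴ * x) • z a) = ∑ a, ‖trace ((z a)ᴴ * x)‖ ^ 2 := by
      rw [tr, trace_comb_right, Complex.re_sum]
      refine sum_congr rfl fun a _ => ?_
      rw [← star_trace_mul (z a) x]
      have := Complex.mul_conj' (trace ((z a)ᴴ * x))
      rw [show star (trace ((z a)ᴴ * x)) = (starRingEnd ℂ) (trace ((z a)ᴴ * x)) from rfl, this]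
      norm_cast
    rw [nsq_sub, h3] at h1
    linarith
  · rw [sum_comm]
    refine sum_le_sum fun b _ => ?_
    rw [sub_sub_cancel]
    exact synth hz _
  · refine (LL_sub_le w _).trans (add_le_add le_rfl (rsmul_le (by norm_num) ?_))
    exact LL_comb (fun a b => trace ((z a)ᴴ * w b)) hX z
  · rw [RR_eq, RR_eq, RR_eq]
    have e : (fun b => (w b - ∑ a, trace ((z a)ᴴ * w b) • z a)ᴴ) =
        fun b => (w b)ᴴ - ∑ a, star (trace ((z a)ᴴ * w b)) • (z a)ᴴ := by
      funext b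
      rw [conjTranspose_sub, conjTranspose_sum]
      simp only [conjTranspose_smul]
    rw [e]
    refine (LL_sub_le (fun b => (w b)ᴴ) _).trans (add_le_add le_rfl (rsmul_le (by norm_num) ?_))
    exact LL_comb (fun a b => star (trace ((z a)ᴴ * w b))) hX' fun a => (z a)ᴴ

end Pool.Agent.H101Z.NH
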