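import Pool.Agent.H101Z.NH.LO

set_option autoImplicit false
set_option linter.unusedSectionVars false
set_option linter.unusedVariables false

/-!
The cross Gram matrix.
-/

namespace Pool.Agent.H101Z.NH

open Matrix Finset Pool.Agent.H304Z.NH
open scoped MatrixOrder ComplexOrder

variable {n : Type} [Fintype n] [DecidableEq n] {ι : Type} [Fintype ι]

theorem sum_nsq_mul_left {y : ι → Mat n} {U : Mat n} (hU : IsProj U) {m : ℝ}
    (h : LL y ≤ m • U) (x : Mat n) : ∑ a, nsq (x * y a) ≤ m * nsq (x * U) := by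
  have h1 := tr_mul_le (star_mul_nonneg x) h
  rw [LL, Finset.mul_sum, tr_sum, Matrix.mul_smul, tr_smul, ← hU.nsq_mul] at h1
  simpa only [nsq_mul] using h1

theorem sum_nsq_mul_right {y : ι → Mat n} {U : Mat n} (hU : IsProj U) {m : ℝ}
    (h : RR y ≤ m • U) (x : Mat n) : ∑ a, nsq (y a * x) ≤ m * nsq (U * x) := by
  have h1 := tr_mul_le (mul_star_nonneg x) h
  rw [RR, Finset.mul_sum, tr_sum, Matrix.mul_smul, tr_smul, ← hU.nsq_mul'] at h1
  refine le_trans (le_of_eq (sum_congr rfl fun a _ => ?_)) h1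
  rw [nsq_mul, tr_comm]

theorem bes_right {y : ι → Mat n} (hy : Bes y) (x : Mat n) :
    ∑ b, ‖trace (x * y b)‖ ^ 2 ≤ nsq x := by
  have h := hy xᴴ
  rw [nsq_star] at h
  refine le_trans (le_of_eq (sum_congr rfl fun b _ => ?_)) h
  rw [norm_trace_swap, conjTranspose_conjTranspose]

theorem nsq_cm_conj {v : Mat n} (hv : IsU v) (y : Mat n) : nsq (cm v yᴴ) = nsq (cm v y) := by
  rw [← nsq_star, ← nsq_cm_star hv y, ← nsq_neg]
  congr 1
  simp only [cm, conjTranspose_sub, conjTranspose_mul, conjTranspose_conjTranspose, neg_sub]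

theorem norm_add3_sq (p q r : ℂ) :
    ‖p + q + r‖ ^ 2 ≤ 3 * ‖p‖ ^ 2 + 3 * ‖q‖ ^ 2 + 3 * ‖r‖ ^ 2 := by
  have h := norm_add₃_le (a := p) (b := q) (c := r)
  have h2 := pow_le_pow_left₀ (norm_nonneg _) h 2
  nlinarith [sq_nonneg (‖p‖ - ‖q‖), sq_nonneg (‖p‖ - ‖r‖), sq_nonneg (‖q‖ - ‖r‖)]

theorem norm_add_sq2 (p q : ℂ) : ‖p + q‖ ^ 2 ≤ 2 * ‖p‖ ^ 2 + 2 * ‖q‖ ^ 2 := by
  have h := norm_add_le p q
  have h2 := pow_le_pow_left₀ (norm_nonneg _) h 2
  nlinarith [sq_nonneg (‖p‖ - ‖q‖)]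

theorem one_conj {y : ι → Mat n} {U : Mat n} (hU : IsProj U) {m : ℝ} (hy : Feas U m y)
    {v c : Mat n} (hv : IsU v) (hc : IsU c) (u' : Mat n) :
    ∑ a, ∑ b, ‖trace ((y a)ᴴ * (y b * c)) - trace ((y a)ᴴ * (y b * u'))‖ ^ 2 ≤
      6 * ∑ a, nsq (cm v (y a)) + 3 * (m * nsq (U * (v * c - u' * v))) := by
  have e : ∀ a b, trace ((y a)ᴴ * (y b * c)) - trace ((y a)ᴴ * (y b * u')) =
      trace (c * vᴴ * cm v (y a)ᴴ * y b) + trace ((y a)ᴴ * (cm v (y b) * c * vᴴ)) +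
        trace ((y a)ᴴ * (y b * ((v * c - u' * v) * vᴴ))) := by
    intro a b
    have e1 : c * vᴴ * cm v (y a)ᴴ * y b =
        c * (vᴴ * v) * ((y a)ᴴ * y b) - (c * vᴴ) * ((y a)ᴴ * v * y b) := by
      simp only [cm]; noncomm_ring
    have e2 : (y a)ᴴ * (cm v (y b) * c * vᴴ) =
        ((y a)ᴴ * v * y b) * (c * vᴴ) - (y a)ᴴ * y b * v * c * vᴴ := by
      simp only [cm]; noncomm_ring
    have e3 : (y a)ᴴ * (y b * ((v * c - u' * v) * vᴴ)) =
        (y a)ᴴ * y b * v * c * vᴴ - (y a)ᴴ * (y b * u') * (v * vᴴ) := by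
      noncomm_ring
    rw [e1, e2, e3, hv.1, hv.2, Matrix.mul_one, Matrix.mul_one, trace_sub, trace_sub, trace_sub,
      trace_mul_comm c, trace_mul_comm (c * vᴴ), Matrix.mul_assoc (y a)ᴴ (y b) c]
    ring
  have h1 : ∑ a, ∑ b, ‖trace (c * vᴴ * cm v (y a)ᴴ * y b)‖ ^ 2 ≤ ∑ a, nsq (cm v (y a)) := by
    refine sum_le_sum fun a _ => (bes_right hy.1 _).trans (le_of_eq ?_)
    rw [nsq_U_mul (hc.mul hv.star), nsq_cm_conj hv]
  have h2 : ∑ a, ∑ b, ‖trace ((y a)ᴴ * (cm v (y b) * c * vᴴ))‖ ^ 2 ≤ ∑ a, nsq (cm v (y a)) := by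
    rw [sum_comm]
    refine sum_le_sum fun b _ => (hy.1 _).trans (le_of_eq ?_)
    rw [nsq_mul_U hv.star, nsq_mul_U hc]
  have h3 : ∑ a, ∑ b, ‖trace ((y a)ᴴ * (y b * ((v * c - u' * v) * vᴴ)))‖ ^ 2 ≤
      m * nsq (U * (v * c - u' * v)) := by
    rw [sum_comm]
    refine (sum_le_sum fun b _ => hy.1 _).trans ((sum_nsq_mul_right hU hy.2.2 _).trans (le_of_eq ?_))
    rw [← Matrix.mul_assoc, nsq_mul_U hv.star]
  have h4 : ∑ a, ∑ b, ‖trace ((y a)ᴴ * (y b * c)) - trace ((y a)ᴴ * (y b * u'))‖ ^ 2 ≤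
      ∑ a, ∑ b, (3 * ‖trace (c * vᴴ * cm v (y a)ᴴ * y b)‖ ^ 2 +
        3 * ‖trace ((y a)ᴴ * (cm v (y b) * c * vᴴ))‖ ^ 2 +
        3 * ‖trace ((y a)ᴴ * (y b * ((v * c - u' * v) * vᴴ)))‖ ^ 2) := by
    refine sum_le_sum fun a _ => sum_le_sum fun b _ => ?_
    rw [e]
    exact norm_add3_sq _ _ _
  simp only [sum_add_distrib, ← Finset.mul_sum] at h4
  linarith

theorem avg_split {J : Type} [Fintype J] [Nonempty J] (p : ℂ) (q : J → ℂ) :
    ‖p‖ ^ 2 ≤ 2 * (Fintype.card J * ∑ j, ‖p - q j‖ ^ 2) +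
      2 * ‖(Fintype.card J : ℝ)⁻¹ • ∑ j, q j‖ ^ 2 := by
  have hc : (1 : ℝ) ≤ Fintype.card J := by exact_mod_cast Fintype.card_pos
  have hc0 : (Fintype.card J : ℝ) ≠ 0 := by linarith
  have e : p = (Fintype.card J : ℝ)⁻¹ • ∑ j, (p - q j) + (Fintype.card J : ℝ)⁻¹ • ∑ j, q j := by
    rw [← smul_add, ← sum_add_distrib]
    simp only [sub_add_cancel, sum_const, card_univ]
    rw [← Nat.cast_smul_eq_nsmul ℝ, smul_smul, inv_mul_cancel₀ hc0, one_smul]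
  have h1 := norm_add_sq2 ((Fintype.card J : ℝ)⁻¹ • ∑ j, (p - q j))
    ((Fintype.card J : ℝ)⁻¹ • ∑ j, q j)
  rw [← e] at h1
  have h2 : ‖(Fintype.card J : ℝ)⁻¹ • ∑ j, (p - q j)‖ ≤ ∑ j, ‖p - q j‖ := by
    rw [norm_smul, Real.norm_eq_abs, abs_of_nonneg (by positivity)]
    have h3 : (Fintype.card J : ℝ)⁻¹ ≤ 1 := inv_le_one_of_one_le₀ hc
    have h4 := norm_sum_le univ fun j => p - q j
    have h5 := norm_nonneg (∑ j, (p - q j))
    nlinarith
  have h3 := pow_le_pow_left₀ (norm_nonneg _) h2 2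
  have h4 := sq_sum_le_card_mul_sum_sq (s := univ) (f := fun j => ‖p - q j‖)
  rw [card_univ] at h4
  linarith

theorem lx (hCL : S_CL) : S_LX := by
  classical
  intro G _ S θ c hS J _ _ l
  have hmem : ∀ j, l j ∈ Subgroup.closure (S : Set G) := fun j => hS ▸ Subgroup.mem_top _
  choose W C hC hW using fun j => hCL G S (l j) (hmem j)
  refine ⟨insert c (univ.biUnion fun j =>
    insert (θ (l j)) (insert (θ (l j) * c * (θ (l j))⁻¹) ((W j).image θ))),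
    2 * (Fintype.card J * ∑ j, (6 * C j + 12)), ?_, ?_⟩
  · have : 0 ≤ ∑ j, (6 * C j + 12) := sum_nonneg fun j _ => by linarith [hC j]
    positivity
  intro ω hω n _ _ u U hyp m hm ι _ y hy
  obtain ⟨hu, hu1, hU, hU0, hdf, -⟩ := hyp
  have hN : 0 ≤ ω * (m * tr U) := by positivity
  have hE : 0 ≤ EE (fun g => u (θ g)) S y := sum_nonneg fun a _ => en_nonneg _ _ _
  have m1 : ∀ j, ∀ g ∈ insert (θ (l j)) (insert (θ (l j) * c * (θ (l j))⁻¹) ((W j).image θ)),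
      g ∈ insert c (univ.biUnion fun j =>
        insert (θ (l j)) (insert (θ (l j) * c * (θ (l j))⁻¹) ((W j).image θ))) :=
    fun j g hg => mem_insert_of_mem (mem_biUnion.mpr ⟨j, mem_univ _, hg⟩)
  have hcm : ∀ j, ∑ a, nsq (cm (u (θ (l j))) (y a)) ≤
      C j * (EE (fun g => u (θ g)) S y + ω * (m * tr U)) := by
    intro j
    refine hW j n (fun g => u (θ g)) (fun g => hu _) (by rw [map_one, hu1]) ι y _ hN ?_
    intro a ha b hb
    have e : df (fun g => u (θ g)) a b = df u (θ a) (θ b) := by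
      simp only [df, map_mul]
    have h := hdf (θ a) (m1 j _ (mem_insert_of_mem (mem_insert_of_mem (mem_image_of_mem θ ha))))
      (θ b) (m1 j _ (mem_insert_of_mem (mem_insert_of_mem (mem_image_of_mem θ hb))))
    rw [e]
    constructor
    · refine (sum_nsq_mul_left hU hy.2.1 _).trans ?_
      have := mul_le_mul_of_nonneg_left h.1 hm.le
      linarith
    · refine (sum_nsq_mul_right hU hy.2.2 _).trans ?_
      have := mul_le_mul_of_nonneg_left h.2 hm.le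
      linarith
  have hj : ∀ j, ∑ a, ∑ b, ‖trace ((y a)ᴴ * (y b * u c)) -
      trace ((y a)ᴴ * (y b * u (θ (l j) * c * (θ (l j))⁻¹)))‖ ^ 2 ≤
      (6 * C j + 12) * (EE (fun g => u (θ g)) S y + ω * (m * tr U)) := by
    intro j
    have h1 := one_conj hU hy (hu (θ (l j))) (hu c) (u (θ (l j) * c * (θ (l j))⁻¹))
    have e : U * (u (θ (l j)) * u c - u (θ (l j) * c * (θ (l j))⁻¹) * u (θ (l j))) =
        U * df u (θ (l j)) c - U * df u (θ (l j) * c * (θ (l j))⁻¹) (θ (l j)) := by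
      simp only [df, inv_mul_cancel_right]
      noncomm_ring
    have h2 := nsq_sub_le (U * df u (θ (l j)) c)
      (U * df u (θ (l j) * c * (θ (l j))⁻¹) (θ (l j)))
    have h3 := (hdf (θ (l j)) (m1 j _ (mem_insert_self _ _)) c (mem_insert_self _ _)).2
    have h4 := (hdf _ (m1 j _ (mem_insert_of_mem (mem_insert_self _ _))) (θ (l j))
      (m1 j _ (mem_insert_self _ _))).2
    rw [← e] at h2
    have h5 : nsq (U * (u (θ (l j)) * u c - u (θ (l j) * c * (θ (l j))⁻¹) * u (θ (l j)))) ≤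
        4 * (ω * tr U) := by linarith
    have h6 := mul_le_mul_of_nonneg_left h5 hm.le
    have h7 := hcm j
    nlinarith
  have hmain : ∑ a, ∑ b, ‖trace ((y a)ᴴ * (y b *
      ((Fintype.card J : ℝ)⁻¹ • ∑ j, u (θ (l j) * c * (θ (l j))⁻¹))))‖ ^ 2 ≤
      m * nsq (U * ((Fintype.card J : ℝ)⁻¹ • ∑ j, u (θ (l j) * c * (θ (l j))⁻¹))) := by
    rw [sum_comm]
    exact (sum_le_sum fun b _ => hy.1 _).trans (sum_nsq_mul_right hU hy.2.2 _)
  have hsplit : ∑ a, ∑ b, ‖trace ((y a)ᴴ * (y b * u c))‖ ^ 2 ≤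
      ∑ a, ∑ b, (2 * (Fintype.card J * ∑ j, ‖trace ((y a)ᴴ * (y b * u c)) -
        trace ((y a)ᴴ * (y b * u (θ (l j) * c * (θ (l j))⁻¹)))‖ ^ 2) +
      2 * ‖trace ((y a)ᴴ * (y b *
        ((Fintype.card J : ℝ)⁻¹ • ∑ j, u (θ (l j) * c * (θ (l j))⁻¹))))‖ ^ 2) := by
    refine sum_le_sum fun a _ => sum_le_sum fun b _ => ?_
    have h := avg_split (trace ((y a)ᴴ * (y b * u c)))
      fun j => trace ((y a)ᴴ * (y b * u (θ (l j) * c * (θ (l j))⁻¹)))
    rw [Matrix.mul_smul, Matrix.mul_smul, trace_smul, Finset.mul_sum _ _ (y b),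
      Finset.mul_sum _ _ (y a)ᴴ, trace_sum]
    exact h
  simp only [sum_add_distrib, ← Finset.mul_sum] at hsplit
  have hsw : ∑ a, ∑ b, ∑ j, ‖trace ((y a)ᴴ * (y b * u c)) -
      trace ((y a)ᴴ * (y b * u (θ (l j) * c * (θ (l j))⁻¹)))‖ ^ 2 ≤
      (∑ j, (6 * C j + 12)) * (EE (fun g => u (θ g)) S y + ω * (m * tr U)) := by
    rw [Finset.sum_mul]
    refine le_trans (le_of_eq ?_) (sum_le_sum fun j _ => hj j)
    rw [sum_congr rfl fun a _ => sum_comm, sum_comm]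
  have hc : (0 : ℝ) ≤ Fintype.card J := Nat.cast_nonneg _
  have h8 := mul_le_mul_of_nonneg_left hsw hc
  nlinarith

end Pool.Agent.H101Z.NH
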